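import Mathlib
import Pool.Agent.V11275.Toric3

namespace Pool.Agent.Results.MP_141d57_co.RealRooted

open Polynomial Finset

/-- The toric `g`-contribution polynomial
`g_{n,j}(x) = ∑_{k=0}^{min(⌊n/2⌋, n-j)} C_{n-k-j} * binom(n-k,k) * (x-1)^k`. -/
noncomputable def g (n j : ℕ) : ℝ[X] :=
  ∑ k ∈ range (min (n / 2) (n - j) + 1),
    C ((catalan (n - k - j) : ℝ) * ((n - k).choose k : ℝ)) * (X - 1) ^ k

/-- A real polynomial is real-rooted if it is nonzero and all its complex roots are real. -/
def IsRealRooted (p : ℝ[X]) : Prop := p ≠ 0 ∧ ∀ z : ℂ, aeval z p = 0 → z.im = 0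

open Pool.V11275.Toric

lemma g_eq (j r : ℕ) : g (2 * j + r) j = (A j r).comp (X - 1) := by
  have hmin : min ((2 * j + r) / 2) (2 * j + r - j) = (2 * j + r) / 2 := by omega
  unfold g A
  rw [hmin, Polynomial.sum_comp]
  have hsub : range ((2 * j + r) / 2 + 1) ⊆ range (2 * j + r + 1) := by
    intro x hx; rw [mem_range] at hx ⊢; omega
  rw [← Finset.sum_subset hsub]
  · apply Finset.sum_congr rfl
    intro k hk
    rw [mem_range] at hk
    rw [mul_comp, C_comp, X_pow_comp, show 2 * j + r - k - j = j + r - k by omega]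
  · intro k hk hk'
    rw [mem_range] at hk hk'
    rw [Nat.choose_eq_zero_of_lt (by omega : 2 * j + r - k < k)]
    simp

lemma im_zero_of_splits {p : ℝ[X]} (hp : p.Splits) (h0 : p ≠ 0) {z : ℂ} (hz : aeval z p = 0) :
    z.im = 0 := by
  have h1 : IsRoot (p.map (algebraMap ℝ ℂ)) z := by
    rw [IsRoot.def, eval_map_algebraMap]; exact hz
  have h2 : z ∈ (algebraMap ℝ ℂ).range := hp.mem_range_of_isRoot h0 h1
  obtain ⟨x, rfl⟩ := h2
  simp

/-- For every `n ≥ 1` and `0 ≤ j ≤ ⌊n/2⌋` the polynomial `g_{n,j}` is real-rooted. -/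
theorem result (n j : ℕ) (_hn : 1 ≤ n) (hj : j ≤ n / 2) : IsRealRooted (g n j) := by
  obtain ⟨r, rfl⟩ : ∃ r, n = 2 * j + r := ⟨n - 2 * j, by omega⟩
  rw [g_eq]
  constructor
  · intro h
    have h1 := congrArg (fun p => p.eval (1 : ℝ)) h
    simp only [eval_comp, eval_sub, eval_X, eval_one, sub_self, eval_zero] at h1
    rw [← coeff_zero_eq_eval_zero, A_coeff] at h1
    have h2 : 0 < catalan (j + r - 0) := by
      by_contra hc
      have h0 : catalan (j + r - 0) = 0 := by omega
      have := succ_mul_catalan_eq_centralBinom (j + r - 0)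
      rw [h0, mul_zero] at this
      exact (Nat.centralBinom_pos _).ne this
    rw [Nat.choose_zero_right, Nat.cast_one, mul_one] at h1
    have h3 : (0 : ℝ) < (catalan (j + r - 0) : ℝ) := by exact_mod_cast h2
    linarith
  · intro z hz
    rw [aeval_comp] at hz
    simp only [map_sub, aeval_X, map_one] at hz
    rcases Nat.eq_zero_or_pos j with rfl | hj0
    · have hP : aeval (1 - z) (P r) = 0 := by
        unfold P
        rw [aeval_comp]
        simp only [map_neg, aeval_X]
        rw [show -(1 - z) = z - 1 by ring]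
        exact hz
      have hP0 : P r ≠ 0 := by
        intro h
        have := P_eval_one r
        rw [h] at this
        simp at this
      have := im_zero_of_splits (P_splits r) hP0 hP
      simpa using this
    · obtain ⟨m, rfl⟩ : ∃ m, j = m + 1 := ⟨j - 1, by omega⟩
      rw [A_eq, map_mul] at hz
      rcases mul_eq_zero.1 hz with h | h
      · simp only [map_add, map_one, aeval_X] at h
        have : z = 0 := by linear_combination h
        rw [this]; simp
      · have hR := (main_S m r).1
        have := im_zero_of_splits hR.splits hR.ne_zero h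
        simpa using this

end Pool.Agent.Results.MP_141d57_co.RealRooted
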